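import Pool.Agent.Lib.MP_610fe3_an.CD.Final

/-!
# The conformality defect of the attractors of an Anosov diffeomorphism

Let `f` be a `C^1` Anosov diffeomorphism of a closed connected manifold, with stable bundle `Es`
and unstable bundle `Eu`, `d = dim Eu`. Let `U` be a proper attracting region (`U` is open,
nonempty, different from `M`, and `f (closure U) ⊆ U`), `A` its attractor (the points whose
backward orbit is in `U`) and `R` the dual repeller (the points whose forward orbit does not meet
`U`). Suppose that over `A ∪ R` the stable rates are in `[s, b]` and the unstable rates are at least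
`a`, where `0 < s ≤ b`, `0 < a`. Let `κ` be an upper bound for the exponential defect of
conformality of the derivatives of the iterates of `f` on `Eu`.

* If `κ` is a bound over `A ∪ R` then `a s ≤ 4 (1 - 1 / d) κ (b - s)`.
* If `κ` is a bound over `A` only, and `B` an upper bound for the unstable rates over `A ∪ R`, then
  `a² s ≤ 4 (1 - 1 / d) κ ((b - s) B - a s)`.

If `f` is not topologically transitive then there is a proper attracting region. So `f` is
transitive if `4 (1 - 1 / d) κ (b - s) < a s` for bounds over `M` (theorem `transitive`).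

Each of the bounds is either a uniform bound or, if `f` and its inverse are of class `C^2`, a bound
for the Lyapunov exponents at the periodic points (of the set in question) only. In particular, if
`f` is a `C^2` diffeomorphism, every attractor contains a periodic point with two different positive
Lyapunov exponents, every repeller a periodic point with two different negative Lyapunov exponents
(theorem `two_exponents`); so `f` is transitive if each periodic point has only one positive
exponent, or each only one negative exponent (theorem `conformal`).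

The case `d = 1` is the theorem of Franks and Newhouse; the second inequality contains the pinching
condition `(b - s) B < a s` of Brin and Manning.
-/

open Set Filter Function Bundle
open scoped Topology Manifold ContDiff

namespace Pool.Agent.Results.MP_610fe3_an.ConformalityDefect

open Pool.Agent.Lib.MP610fe3
open AP (Att Rep Rate)

variable {V : Type*} [NormedAddCommGroup V] [NormedSpace ℝ V] [FiniteDimensional ℝ V]
  {M : Type*} [TopologicalSpace M] [CompactSpace M] [T2Space M] [ConnectedSpace M]
  [ChartedSpace V M] [IsManifold 𝓘(ℝ, V) ∞ M]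
  [RiemannianBundle (fun x : M => TangentSpace 𝓘(ℝ, V) x)]
  [IsContinuousRiemannianBundle V (fun x : M => TangentSpace 𝓘(ℝ, V) x)]

/-- **Main theorem.** Lower bounds for the defect of conformality of `Eu`, for every proper
attracting region; and there is such a region if `f` is not topologically transitive. -/
theorem result (f : M ≃ₘ^1⟮𝓘(ℝ, V), 𝓘(ℝ, V)⟯ M)
    (Es Eu : ∀ x : M, Submodule ℝ (TangentSpace 𝓘(ℝ, V) x)) (hA : Gen.IsAnosovSplitting f Es Eu)
    (d : ℕ) (hd : ∀ x, Module.finrank ℝ (Eu x) = d) :
    (∀ U : Set M, AC.ProperAttracting f U → ∀ s b a κ : ℝ, 0 < s → s ≤ b → 0 < a → 0 ≤ κ →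
      CD.Bounds f Es Eu U s b a →
      (CD.Defect f Eu κ (Att f U ∪ Rep f U) → a * s ≤ 4 * (1 - 1 / d) * κ * (b - s)) ∧
      (∀ B : ℝ, a ≤ B → Rate f f Eu B (Att f U ∪ Rep f U) → CD.Defect f Eu κ (Att f U) →
        a ^ 2 * s ≤ 4 * (1 - 1 / d) * κ * ((b - s) * B - a * s))) ∧
    (¬ TopTransitive f → ∃ U : Set M, AC.ProperAttracting f U) :=
  CD.main_of CD.specCD f Es Eu hA d hd

/-- The criterion with bounds on `M`; `h1`, .., `h4` are the bounds for `Es`, `Eu` and the defect,
uniform on `M` or at the periodic points. -/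
theorem transitive (f : M ≃ₘ^1⟮𝓘(ℝ, V), 𝓘(ℝ, V)⟯ M)
    (Es Eu : ∀ x : M, Submodule ℝ (TangentSpace 𝓘(ℝ, V) x)) (hA : Gen.IsAnosovSplitting f Es Eu)
    (d : ℕ) (hd : ∀ x, Module.finrank ℝ (Eu x) = d) (s b a κ : ℝ) (hs : 0 < s) (hsb : s ≤ b)
    (ha : 0 < a) (hκ : 0 ≤ κ) (h1 : Rate f f Es (-s) univ) (h2 : Rate f f.symm Es b univ)
    (h3 : Rate f f.symm Eu (-a) univ) (h4 : CD.Defect f Eu κ univ)
    (h : 4 * (1 - 1 / d) * κ * (b - s) < a * s) : TopTransitive f :=
  CD.transitive_of CD.specCD f Es Eu hA d hd s b a κ hs hsb ha hκ h1 h2 h3 h4 h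

/-- If `f` is a `C^2` diffeomorphism, every attractor contains a periodic point with two different
unstable exponents, every repeller a periodic point with two different stable exponents. -/
theorem two_exponents (f : M ≃ₘ^1⟮𝓘(ℝ, V), 𝓘(ℝ, V)⟯ M)
    (hf : ContMDiff 𝓘(ℝ, V) 𝓘(ℝ, V) 2 f) (hf' : ContMDiff 𝓘(ℝ, V) 𝓘(ℝ, V) 2 f.symm)
    (Es Eu : ∀ x : M, Submodule ℝ (TangentSpace 𝓘(ℝ, V) x)) (hA : Gen.IsAnosovSplitting f Es Eu)
    {U : Set M} (hU : AC.ProperAttracting f U) :
    (∃ p ∈ periodicPts f, p ∈ U ∧ ¬ AC.DefectAt f Eu 0 p) ∧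
      ∃ p ∈ periodicPts f, p ∉ U ∧ ¬ AC.DefectAt f.symm Es 0 p :=
  CD.two_exponents_of CD.specCD f hf hf' Es Eu hA hU

/-- If `f` is a `C^2` diffeomorphism, with only one unstable exponent at each periodic point, or
only one stable exponent at each periodic point, then `f` is topologically transitive. -/
theorem conformal (f : M ≃ₘ^1⟮𝓘(ℝ, V), 𝓘(ℝ, V)⟯ M)
    (hf : ContMDiff 𝓘(ℝ, V) 𝓘(ℝ, V) 2 f) (hf' : ContMDiff 𝓘(ℝ, V) 𝓘(ℝ, V) 2 f.symm)
    (Es Eu : ∀ x : M, Submodule ℝ (TangentSpace 𝓘(ℝ, V) x)) (hA : Gen.IsAnosovSplitting f Es Eu)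
    (h : (∀ p ∈ periodicPts f, AC.DefectAt f Eu 0 p) ∨
      ∀ p ∈ periodicPts f, AC.DefectAt f.symm Es 0 p) : TopTransitive f :=
  CD.conformal_of CD.specCD f hf hf' Es Eu hA h

end Pool.Agent.Results.MP_610fe3_an.ConformalityDefect
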