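import Pool.Agent.Lib.MP_610fe3_an.HF.Main

/-!
# Anosov diffeomorphisms and their factors

Let `f` be an Anosov diffeomorphism of a closed connected manifold `M`. If `f` is not topologically
transitive it has a proper attracting region `U` whose attractor `A = ⋂ f^n(U)` is transitive. We
prove that such an attractor has no good algebraic factors. We consider continuous maps `h` with
`h f = g h` (`h` need not be onto), where either

* `g` is an expansive automorphism of any compact metrizable group; here it is enough that `h` is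
  defined on `A`;
* or `g` is a hyperbolic system (`HyperbolicSystem`), for instance a hyperbolic affine map of a
  nilmanifold, and `h` is defined on `M`.

Then

* `h` is constant on nontrivial continua in every unstable plaque of `A`;
* the fibre of `h` over some periodic point of `g` contains a horseshoe, an embedded full shift on
  two symbols for some power of `f`;
* the topological entropy of `f` on `A` is strictly larger than that of `g` on `h(A)`.

Moreover, if `f` is not transitive and `h` is defined on `M`, then `h` is constant on products of two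
nontrivial continua, one in an unstable and one in a stable set, in every nonempty open subset of `M`.
So (`transitive_of_factor`) `f` is transitive if, for instance, `h` is injective on some nonempty open
set.
-/

set_option autoImplicit false

open Set Filter Function Bundle
open scoped Topology Manifold ContDiff

namespace Pool.Agent.Results.MP_610fe3_an.GroupFactor

open Pool.Agent.Lib.MP610fe3

universe v w w'

/-- `U` is a proper attracting region of `f`. -/
def ProperAttracting {M : Type*} [TopologicalSpace M] (f : M → M) (U : Set M) : Prop :=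
  IsOpen U ∧ U.Nonempty ∧ U ≠ univ ∧ f '' closure U ⊆ U

/-- The attractor `⋂ f^n(U)` of the attracting region `U` of `f`; `f'` is the inverse of `f`. -/
def Attractor {M : Type*} (f' : M → M) (U : Set M) : Set M := {x | ∀ n : ℕ, f'^[n] x ∈ U}

/-- The restriction of `f` to the invariant set `A` is topologically transitive. -/
def TransitiveOn {M : Type*} [TopologicalSpace M] (f : M → M) (A : Set M) : Prop :=
  ∀ V W : Set M, IsOpen V → IsOpen W → (V ∩ A).Nonempty → (W ∩ A).Nonempty →
    ∃ n : ℕ, ∃ z ∈ V ∩ A, f^[n] z ∈ W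

/-- `L` is an expansive automorphism of the group `G` and `h` is a continuous map from `A` to `G`
with `h f = L h`. -/
structure ExpansiveFactor {M : Type*} [TopologicalSpace M] (f : M → M) (A : Set M) {G : Type*}
    [Group G] [TopologicalSpace G] (L : G ≃* G) (h : M → G) : Prop where
  cont_L : Continuous L
  expansive : ∃ W ∈ 𝓝 (1 : G), ∀ u : G, (∀ n : ℕ, L^[n] u ∈ W ∧ L.symm^[n] u ∈ W) → u = 1
  cont : ContinuousOn h A
  eq : ∀ x ∈ A, h (f x) = L (h x)

/-- Hyperbolic systems: the homeomorphism `g` of `Y` is compatible with an action of `G` on `Y`, locally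
free and locally transitive in the uniform sense, and with an automorphism `L` of `G`; every element
of `G` is in a unique and continuous way a product `s t` with `s ∈ S`, `t ∈ T`, where `S` and `T` are
invariant subgroups, `L` contracts the compact subsets of `S` to `1` and `L⁻¹` those of `T`.  Model: the
affine map `g` of the nilmanifold `Y = G / Γ` with the hyperbolic linear part `L`. -/
structure HyperbolicSystem {G : Type*} [Group G] [TopologicalSpace G] {Y : Type*} [MetricSpace Y]
    [MulAction G Y] (L : G ≃* G) (g : Y ≃ₜ Y) (S T : Subgroup G) : Prop where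
  cont_L : Continuous L
  cont_L' : Continuous L.symm
  act : ∀ (v : G) (y : Y), g (v • y) = L v • g y
  free : ∃ O ∈ 𝓝 (1 : G), ∀ v ∈ O, ∀ y : Y, v • y = y → v = 1
  trans : ∀ O ∈ 𝓝 (1 : G), ∃ δ : ℝ, 0 < δ ∧ ∀ y y' : Y, dist y y' < δ → ∃ v ∈ O, v • y = y'
  inv_S : ∀ v, v ∈ S ↔ L v ∈ S
  inv_T : ∀ v, v ∈ T ↔ L v ∈ T
  contr_S : ∀ K : Set G, IsCompact K → K ⊆ S → ∀ O ∈ 𝓝 (1 : G), ∀ᶠ n : ℕ in atTop, ∀ v ∈ K,
    L^[n] v ∈ O
  contr_T : ∀ K : Set G, IsCompact K → K ⊆ T → ∀ O ∈ 𝓝 (1 : G), ∀ᶠ n : ℕ in atTop, ∀ v ∈ K,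
    L.symm^[n] v ∈ O
  inter : ∀ v, v ∈ S → v ∈ T → v = 1
  fact : ∃ s t : G → G, Continuous s ∧ Continuous t ∧ ∀ v, s v ∈ S ∧ t v ∈ T ∧ s v * t v = v

/-- The conclusions for an attractor `A`; `f'` is the inverse of `f`:

* for all `x ∈ A` and `ε > 0` there is a nontrivial continuum `K ⊆ A`, contained in the local
  unstable set of size `ε` of `x`, on which `h` is constant;
* there are `l > 0`, a point `t` with `g^l t = t` and an embedding `Z` of the space of the
  two-sided sequences of two symbols in `A`, contained in the fibre of `h` over `t`, such that `f^l`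
  corresponds to the shift;
* the topological entropy of `f` on `A` is larger than that of `g` on `h(A)`. -/
def Drops {M : Type*} [MetricSpace M] (f f' : M → M) (A : Set M) {Y : Type*} [UniformSpace Y]
    (g : Y → Y) (h : M → Y) : Prop :=
  (∀ x ∈ A, ∀ ε : ℝ, 0 < ε → ∃ K : Set M,
    IsCompact K ∧ IsConnected K ∧ K.Nontrivial ∧ K ⊆ A ∧
    (∀ y ∈ K, (∀ n : ℕ, dist (f'^[n] y) (f'^[n] x) ≤ ε) ∧
      Tendsto (fun n : ℕ => dist (f'^[n] y) (f'^[n] x)) atTop (𝓝 0)) ∧
    ∀ y ∈ K, ∀ z ∈ K, h y = h z) ∧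
  (∃ (l : ℕ) (t : Y) (Z : (ℤ → Bool) → M), 0 < l ∧ g^[l] t = t ∧ Continuous Z ∧
    Injective Z ∧ ∀ σ, Z σ ∈ A ∧ h (Z σ) = t ∧ f^[l] (Z σ) = Z (fun k => σ (k + 1))) ∧
  Dynamics.coverEntropy g (h '' A) < Dynamics.coverEntropy f A

/-- `x` and `y` are asymptotic under `f`. -/
def Asymptotic {M : Type*} [MetricSpace M] (f : M → M) (x y : M) : Prop :=
  Tendsto (fun n : ℕ => dist (f^[n] x) (f^[n] y)) atTop (𝓝 0)

/-- Every nonempty open set `V` contains the image under a continuous injection `b` of a product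
`Ku × Ks` of nontrivial continua, on which `h` is constant; `Ku` is contained in one unstable set, `Ks`
in one stable set, and `b (y, w)` is in the stable set of `y` and in the unstable set of `w`; `f'` is
the inverse of `f`. -/
def CollapsesProducts {M : Type*} [MetricSpace M] (f f' : M → M) {Y : Type*} (h : M → Y) : Prop :=
  ∀ V : Set M, IsOpen V → V.Nonempty → ∃ (Ku Ks : Set M) (b : M × M → M),
    (IsCompact Ku ∧ IsConnected Ku ∧ Ku.Nontrivial ∧ ∀ y ∈ Ku, ∀ y' ∈ Ku, Asymptotic f' y y') ∧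
    (IsCompact Ks ∧ IsConnected Ks ∧ Ks.Nontrivial ∧ ∀ y ∈ Ks, ∀ y' ∈ Ks, Asymptotic f y y') ∧
    ContinuousOn b (Ku ×ˢ Ks) ∧ InjOn b (Ku ×ˢ Ks) ∧
    (∀ p ∈ Ku ×ˢ Ks, b p ∈ V ∧ Asymptotic f (b p) p.1 ∧ Asymptotic f' (b p) p.2) ∧
    ∀ p ∈ Ku ×ˢ Ks, ∀ p' ∈ Ku ×ˢ Ks, h (b p) = h (b p')

theorem asymptotic_of {M : Type*} [MetricSpace M] {f : M → M} {x y : M} (h : HF.Asy f x y) :
    Asymptotic f x y := by
  rw [Asymptotic, Metric.tendsto_atTop]
  intro η hη
  obtain ⟨N, hN⟩ := eventually_atTop.1 (h _ (Metric.dist_mem_uniformity hη))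
  refine ⟨N, fun n hn => ?_⟩
  rw [Real.dist_0_eq_abs, abs_of_nonneg dist_nonneg]
  exact hN n hn

theorem drops_of {M : Type*} [MetricSpace M] {f f' : M → M} {A : Set M} {Y : Type*}
    [UniformSpace Y] {g : Y → Y} {h : M → Y} (H : FT.Collapses f' A h ∧ FT.Horseshoe f A g h ∧
      Dynamics.coverEntropy g (h '' A) < Dynamics.coverEntropy f A) : Drops f f' A g h := by
  obtain ⟨h3, h4, h5⟩ := H
  refine ⟨fun x hx ε hε => ?_, h4, h5⟩
  obtain ⟨K, k1, k2, k3, k4, k5, k6, k7⟩ := h3 x hx _ (Metric.dist_mem_uniformity hε)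
  refine ⟨K, k1, k2, k3, k4, fun y hy => ⟨fun n => (le_of_lt (k5 y hy n)), ?_⟩, k7⟩
  exact asymptotic_of (f := f') fun W hW => (k6 W hW).mono fun n hn => hn y hy

theorem collapsesProducts_of {M : Type*} [MetricSpace M] {f f' : M → M} {Y : Type*} {h : M → Y}
    (H : HF.Products f f' h) : CollapsesProducts f f' h := by
  intro V hV hVn
  obtain ⟨Ku, Ks, b, ⟨u1, u2, u3, u4⟩, ⟨s1, s2, s3, s4⟩, b1, b2, b3, b4⟩ := H V hV hVn
  exact ⟨Ku, Ks, b, ⟨u1, u2, u3, fun y hy y' hy' => asymptotic_of (u4 y hy y' hy')⟩,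
    ⟨s1, s2, s3, fun y hy y' hy' => asymptotic_of (s4 y hy y' hy')⟩, b1, b2,
    fun p hp => ⟨(b3 p hp).1, asymptotic_of (b3 p hp).2.1, asymptotic_of (b3 p hp).2.2⟩, b4⟩

variable {V : Type*} [NormedAddCommGroup V] [NormedSpace ℝ V] [FiniteDimensional ℝ V]
  {M : Type v} [MetricSpace M] [CompactSpace M] [ConnectedSpace M]
  [ChartedSpace V M] [IsManifold 𝓘(ℝ, V) ∞ M]
  [RiemannianBundle (fun x : M => TangentSpace 𝓘(ℝ, V) x)]
  [IsContinuousRiemannianBundle V (fun x : M => TangentSpace 𝓘(ℝ, V) x)]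

/-- **Main theorem.** Let `f` be a `C^1` Anosov diffeomorphism of a closed connected manifold, on
which a distance is given. If `f` is not topologically transitive there is a proper attracting
region `U` with a transitive attractor `A`. For every such `U`, the conclusions `Drops` hold

* for every compact metrizable group `G`, every expansive automorphism `L` of `G` and every
  continuous `h : A → G` with `h f = L h`;
* for every hyperbolic system `g : Y → Y` and every continuous `h : M → Y` with `h f = g h`.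

If `f` is not topologically transitive and `h : M → G` or `h : M → Y` is as above, then `h` is constant
on products of continua in every nonempty open set (`CollapsesProducts`). -/
theorem result (f : M ≃ₘ^1⟮𝓘(ℝ, V), 𝓘(ℝ, V)⟯ M) (hf : Gen.IsAnosov f) :
    (TopTransitive f ∨
      ∃ U : Set M, ProperAttracting f U ∧ TransitiveOn f (Attractor f.symm U)) ∧
    (∀ (G : Type w) [MetricSpace G] [CompactSpace G] [Group G] [IsTopologicalGroup G]
      (L : G ≃* G) (h : M → G),
      (∀ U : Set M, ProperAttracting f U → TransitiveOn f (Attractor f.symm U) →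
        ExpansiveFactor f (Attractor f.symm U) L h → Drops f f.symm (Attractor f.symm U) L h) ∧
      (¬ TopTransitive f → ExpansiveFactor f univ L h → CollapsesProducts f f.symm h)) ∧
    ∀ (Y : Type w) [MetricSpace Y] [CompactSpace Y] (G : Type w') [Group G] [TopologicalSpace G]
      [IsTopologicalGroup G] [T2Space G] [LocallyCompactSpace G] [MulAction G Y]
      [ContinuousSMul G Y] (L : G ≃* G) (g : Y ≃ₜ Y) (S T : Subgroup G) (h : M → Y),
      HyperbolicSystem L g S T → Continuous h → (∀ x, h (f x) = g (h x)) →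
      (∀ U : Set M, ProperAttracting f U → TransitiveOn f (Attractor f.symm U) →
        Drops f f.symm (Attractor f.symm U) g h) ∧
      (¬ TopTransitive f → CollapsesProducts f f.symm h) := by
  obtain ⟨h1, h2⟩ := FT.main.{v, w} f hf
  refine ⟨h1.imp id fun ⟨U, h3, h4, h5, h6, h7⟩ => ⟨U, ⟨h3, h4, h5, h6⟩, h7⟩,
    fun G _ _ _ _ L h => ⟨fun U hU hT hF => ?_, fun hnt hF => ?_⟩,
    fun Y _ _ G _ _ _ _ _ _ _ L g S T h H hh hs => ?_⟩
  · exact drops_of (h2 U hU.1 hU.2.1 hU.2.2.1 hU.2.2.2 hT G L h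
      ⟨hF.cont_L, hF.expansive, hF.cont, hF.eq⟩)
  · exact collapsesProducts_of (HF.mainG.{v, w} f hf G L h
      ⟨hF.cont_L, hF.expansive, hF.cont, hF.eq⟩ hnt)
  · obtain ⟨h3, h4⟩ := HF.mainH.{v, w, w'} f hf Y G L g S T h
      ⟨H.cont_L, H.cont_L', H.act, H.free, H.trans, H.inv_S, H.inv_T, H.contr_S, H.contr_T, H.inter,
        H.fact⟩ hh hs
    exact ⟨fun U hU hT => drops_of (h3 U hU.1 hU.2.1 hU.2.2.1 hU.2.2.2 hT),
      fun hnt => collapsesProducts_of (h4 hnt)⟩

/-- The models: expansive automorphisms of compact groups, and hyperbolic systems. -/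
def IsModel {Y : Type w} [MetricSpace Y] [CompactSpace Y] (g : Y ≃ₜ Y) : Prop :=
  (∃ (_ : Group Y) (_ : IsTopologicalGroup Y) (L : Y ≃* Y), (∀ y, L y = g y) ∧
    ∃ W ∈ 𝓝 (1 : Y), ∀ u : Y, (∀ n : ℕ, L^[n] u ∈ W ∧ L.symm^[n] u ∈ W) → u = 1) ∨
  ∃ (G : Type w') (_ : Group G) (_ : TopologicalSpace G) (_ : IsTopologicalGroup G)
    (_ : T2Space G) (_ : LocallyCompactSpace G) (_ : MulAction G Y) (_ : ContinuousSMul G Y)
    (L : G ≃* G) (S T : Subgroup G), HyperbolicSystem L g S T

/-- `h` is constant on some nontrivial continuum `K ⊆ V` all of whose points are asymptotic under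
`f`. -/
def CollapsesIn {M : Type*} [MetricSpace M] (f : M → M) (V : Set M) {Y : Type*} (h : M → Y) :
    Prop :=
  ∃ K ⊆ V, IsCompact K ∧ IsConnected K ∧ K.Nontrivial ∧ (∀ y ∈ K, ∀ z ∈ K, Asymptotic f y z) ∧
    ∀ y ∈ K, ∀ z ∈ K, h y = h z

theorem Asymptotic.symm {M : Type*} [MetricSpace M] {f : M → M} {x y : M}
    (h : Asymptotic f x y) : Asymptotic f y x := by
  refine h.congr fun n => ?_
  rw [dist_comm]

theorem Asymptotic.trans {M : Type*} [MetricSpace M] {f : M → M} {x y z : M}
    (h : Asymptotic f x y) (h' : Asymptotic f y z) : Asymptotic f x z := by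
  have h1 := h.add h'
  rw [add_zero] at h1
  exact squeeze_zero (fun _ => dist_nonneg) (fun n => dist_triangle _ _ _) h1

/-- From products to continua in unstable and in stable sets. -/
theorem CollapsesProducts.collapsesIn {M : Type*} [MetricSpace M] {f f' : M → M} {Y : Type*}
    {h : M → Y} (H : CollapsesProducts f f' h) {V : Set M} (hV : IsOpen V) (hVn : V.Nonempty) :
    CollapsesIn f' V h ∧ CollapsesIn f V h := by
  obtain ⟨Ku, Ks, b, ⟨u1, u2, u3, -⟩, ⟨s1, s2, s3, -⟩, b1, b2, b3, b4⟩ := H V hV hVn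
  obtain ⟨y₀, hy₀⟩ := u2.nonempty
  obtain ⟨w₀, hw₀⟩ := s2.nonempty
  constructor
  · have hm : MapsTo (fun y : M => (y, w₀)) Ku (Ku ×ˢ Ks) := fun y hy => ⟨hy, hw₀⟩
    have hc : ContinuousOn (fun y : M => b (y, w₀)) Ku :=
      b1.comp (by fun_prop) hm
    refine ⟨(fun y => b (y, w₀)) '' Ku, ?_, u1.image_of_continuousOn hc, u2.image _ hc, ?_, ?_, ?_⟩
    · rintro _ ⟨y, hy, rfl⟩
      exact (b3 _ (hm hy)).1
    · refine u3.image_of_injOn fun y hy y' hy' hyy => ?_
      exact (Prod.ext_iff.1 (b2 (hm hy) (hm hy') hyy)).1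
    · rintro _ ⟨y, hy, rfl⟩ _ ⟨y', hy', rfl⟩
      exact (b3 _ (hm hy)).2.2.trans (b3 _ (hm hy')).2.2.symm
    · rintro _ ⟨y, hy, rfl⟩ _ ⟨y', hy', rfl⟩
      exact b4 _ (hm hy) _ (hm hy')
  · have hm : MapsTo (fun w : M => (y₀, w)) Ks (Ku ×ˢ Ks) := fun w hw => ⟨hy₀, hw⟩
    have hc : ContinuousOn (fun w : M => b (y₀, w)) Ks :=
      b1.comp (by fun_prop) hm
    refine ⟨(fun w => b (y₀, w)) '' Ks, ?_, s1.image_of_continuousOn hc, s2.image _ hc, ?_, ?_, ?_⟩
    · rintro _ ⟨y, hy, rfl⟩
      exact (b3 _ (hm hy)).1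
    · refine s3.image_of_injOn fun y hy y' hy' hyy => ?_
      exact (Prod.ext_iff.1 (b2 (hm hy) (hm hy') hyy)).2
    · rintro _ ⟨y, hy, rfl⟩ _ ⟨y', hy', rfl⟩
      exact (b3 _ (hm hy)).2.1.trans (b3 _ (hm hy')).2.1.symm
    · rintro _ ⟨y, hy, rfl⟩ _ ⟨y', hy', rfl⟩
      exact b4 _ (hm hy) _ (hm hy')

/-- **Criterion.** Let `f` be a `C^1` Anosov diffeomorphism of a closed connected manifold `M`, `g` an
expansive automorphism of a compact metrizable group or a hyperbolic system, `h : M → Y` continuous,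
`h f = g h`. Each of the following conditions implies that `f` is topologically transitive:

* for some nonempty open `V`, `h` is not constant on any nontrivial continuum in `V` contained in an
  unstable set (for instance, `h` is injective on `V`);
* the same with stable sets;
* the fibre of `h` over every periodic point of `g` contains only finitely many periodic points of
  `f`;
* `h_top(f|A) ≤ h_top(g|h(A))` for every transitive proper attractor `A`. -/
theorem transitive_of_factor (f : M ≃ₘ^1⟮𝓘(ℝ, V), 𝓘(ℝ, V)⟯ M) (hf : Gen.IsAnosov f)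
    {Y : Type w} [MetricSpace Y] [CompactSpace Y] (g : Y ≃ₜ Y) (hg : IsModel.{w, w'} g)
    (h : M → Y) (hh : Continuous h) (hs : ∀ x, h (f x) = g (h x))
    (H : (∃ V : Set M, IsOpen V ∧ V.Nonempty ∧ ¬ CollapsesIn f.symm V h) ∨
      (∃ V : Set M, IsOpen V ∧ V.Nonempty ∧ ¬ CollapsesIn f V h) ∨
      (∀ (l : ℕ) (t : Y), 0 < l → g^[l] t = t → ({x | h x = t} ∩ periodicPts f).Finite) ∨
      ∀ U : Set M, ProperAttracting f U → TransitiveOn f (Attractor f.symm U) →
        Dynamics.coverEntropy f (Attractor f.symm U) ≤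
          Dynamics.coverEntropy g (h '' Attractor f.symm U)) :
    TopTransitive f := by
  by_contra hnt
  obtain ⟨h1, h2, h3⟩ := result.{v, w, w'} f hf
  have key : (∀ U : Set M, ProperAttracting f U → TransitiveOn f (Attractor f.symm U) →
      Drops f f.symm (Attractor f.symm U) g h) ∧ CollapsesProducts f f.symm h := by
    rcases hg with ⟨_, _, L, hL, W, hW, hexp⟩ | ⟨G, _, _, _, _, _, _, _, L, S, T, hG⟩
    · have e1 : ⇑L = ⇑g := funext hL
      have hF : ExpansiveFactor f univ L h :=
        ⟨by rw [e1]; exact g.continuous, ⟨W, hW, hexp⟩, hh.continuousOn, fun x _ => by rw [hs, e1]⟩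
      obtain ⟨h4, h5⟩ := h2 Y L h
      refine ⟨fun U hU hT => ?_, h5 hnt hF⟩
      rw [← e1]
      exact h4 U hU hT ⟨hF.cont_L, hF.expansive, hF.cont.mono (subset_univ _),
        fun x _ => hF.eq x (mem_univ _)⟩
    · obtain ⟨h4, h5⟩ := h3 Y G L g S T h hG hh hs
      exact ⟨h4, h5 hnt⟩
  obtain ⟨U, hU, hT⟩ := h1.resolve_left hnt
  obtain ⟨-, h4, h5⟩ := key.1 U hU hT
  rcases H with ⟨V, hV, hVn, hc⟩ | ⟨V, hV, hVn, hc⟩ | H | H
  · exact hc (key.2.collapsesIn hV hVn).1
  · exact hc (key.2.collapsesIn hV hVn).2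
  · obtain ⟨l, t, hl, ht, hinf⟩ := FT.Horseshoe.infinite (f := f) (A := Attractor f.symm U)
      (L := g) (h := h) h4
    exact hinf ((H l t hl ht).subset (inter_subset_inter_left _ fun x hx => hx.2))
  · exact absurd (H U hU hT) (not_le.2 h5)

end Pool.Agent.Results.MP_610fe3_an.GroupFactor
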