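import Pool.Agent.Lib.MP_610fe3_an.HR.F4Main

/-!
# Transitivity of Anosov actions of `ℤ^k`

Let `M` be a closed connected manifold with an action `A` of `ℤ^k` by `C^1` diffeomorphisms, and
`χ j`, `j ∈ J`, finitely many linear functionals with fields of subspaces `F j` of the tangent
spaces, such that every *regular* `n ∈ ℤ^k` (no `χ j` vanishes at `n`) acts by an Anosov
diffeomorphism `A n` whose stable bundle is the sum of the `F j` with `χ j n < 0` and whose unstable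
bundle is the sum of the `F j` with `χ j n > 0`. The coarse bundle `E i` is the sum of the `F l` such
that `χ l` is a positive multiple of `χ i`.

Theorem `result`: assume that for every pair `i`, `j` such that `χ i` is a negative multiple of `χ j`
one of the following conditions holds for `i`, `j` or for `j`, `i`.

* (conformal) For ONE regular `n` with `χ i n < 0` the bundle `E i` is asymptotically conformal for
  `A n`: the distortion of the derivative of `(A n)^m` on `E i` is at most `C exp (e m)` for all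
  `e > 0`. Nothing is assumed about `E j`.
* There are `0 < s ≤ b`, `0 < s' ≤ b'` such that, for ONE regular `n` with `χ i n < 0`, the exponents
  of `A n` on `E i` are in `[-b, -s]`, for ONE regular `n'` with `χ j n' < 0` those of `A n'` on `E j`
  are in `[-b', -s']`, and (pinched) `(b - s) * (b' - s') < s * s'` or (nearly conformal) the
  distortion of the derivative of `(A n)^m` on `E i` is at most `C exp ((κ + e) m)` for all `e > 0`,
  where `κ < s` and `u κ (u b' - s') < s s'`, `u` the dimension of `E i`.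
* (line) `E i` has dimension one. Nothing is assumed about `E j`.
* The `A n` are of class `C^2` and the first or the second condition holds at the periodic points of
  `A n` (of `A n'`) only.
* The `A n` are of class `C^2`, the `F l` are not zero, the rank `r` of the family `χ` is at least
  two and the dimension of `M` is at most `r + 3`.

Then all `A n`, `n` regular, are topologically transitive.

For `k = 1` the theorem says that an Anosov diffeomorphism is transitive if its stable (or unstable)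
bundle is asymptotically conformal, of any dimension, if it is nearly conformal, if it is pinched
(this contains the condition of Brin and Manning), or if it has dimension one (Franks and Newhouse).
The theorem applies to totally Cartan actions (all coarse bundles have dimension one), to actions
without negatively proportional functionals, and to all actions of class `C^2` of rank at least two
on manifolds of dimension at most five.
-/

set_option autoImplicit false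

open Set Filter Function Bundle
open scoped Topology Manifold ContDiff

namespace Pool.Agent.Results.MP_610fe3_an.HigherRank

open Pool.Agent.Lib.MP610fe3

section Defs

variable {V : Type*} [NormedAddCommGroup V] [NormedSpace ℝ V]
  {M : Type*} [TopologicalSpace M] [ChartedSpace V M]
  [RiemannianBundle (fun x : M => TangentSpace 𝓘(ℝ, V) x)]

/-- The exponents of `f` on the bundle `E` are at most `r`: for all `e > 0` the derivatives of the
iterates `f^m` are bounded by `C exp ((r + e) m)` on `E`. -/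
def ExpLe (f : M → M) (E : ∀ x : M, Submodule ℝ (TangentSpace 𝓘(ℝ, V) x)) (r : ℝ) : Prop :=
  ∀ e : ℝ, 0 < e → ∃ C : ℝ, ∀ (m : ℕ) (x : M), ∀ v ∈ E x,
    ‖mfderiv 𝓘(ℝ, V) 𝓘(ℝ, V) (f^[m]) x v‖ ≤ C * Real.exp ((r + e) * m) * ‖v‖

/-- The exponents of `f` on the subspace `E` of the tangent space at the point `p` are at most `r`. -/
def ExpLeAt (f : M → M) (p : M) (E : Submodule ℝ (TangentSpace 𝓘(ℝ, V) p)) (r : ℝ) : Prop :=
  ∀ e : ℝ, 0 < e → ∃ C : ℝ, ∀ (m : ℕ), ∀ v ∈ E,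
    ‖mfderiv 𝓘(ℝ, V) 𝓘(ℝ, V) (f^[m]) p v‖ ≤ C * Real.exp ((r + e) * m) * ‖v‖

/-- The exponents of `f` on the bundle `E` are in `[-b, -s]`. -/
def Within (f : M ≃ₘ^1⟮𝓘(ℝ, V), 𝓘(ℝ, V)⟯ M)
    (E : ∀ x : M, Submodule ℝ (TangentSpace 𝓘(ℝ, V) x)) (b s : ℝ) : Prop :=
  ExpLe f E (-s) ∧ ExpLe f.symm E b

/-- The exponents of `f` on the bundle `E`, at the periodic points of `f`, are in `[-b, -s]`. -/
def PerWithin (f : M ≃ₘ^1⟮𝓘(ℝ, V), 𝓘(ℝ, V)⟯ M)
    (E : ∀ x : M, Submodule ℝ (TangentSpace 𝓘(ℝ, V) x)) (b s : ℝ) : Prop :=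
  ∀ p ∈ periodicPts f, ExpLeAt f p (E p) (-s) ∧ ExpLeAt f.symm p (E p) b

/-- The defect of conformality of `f` on the bundle `E` is at most `κ`: for all `e > 0` the
distortion of the derivatives of the iterates `f^m` on `E` is at most `C exp ((κ + e) m)`. -/
def Defect (f : M ≃ₘ^1⟮𝓘(ℝ, V), 𝓘(ℝ, V)⟯ M)
    (E : ∀ x : M, Submodule ℝ (TangentSpace 𝓘(ℝ, V) x)) (κ : ℝ) : Prop :=
  ∀ e : ℝ, 0 < e → ∃ C : ℝ, ∀ (m : ℕ) (x : M), ∀ v ∈ E x, ∀ w ∈ E x,
    ‖mfderiv 𝓘(ℝ, V) 𝓘(ℝ, V) (f^[m]) x v‖ * ‖w‖ ≤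
      C * Real.exp ((κ + e) * m) * ‖mfderiv 𝓘(ℝ, V) 𝓘(ℝ, V) (f^[m]) x w‖ * ‖v‖

/-- The defect of conformality of `f` on the bundle `E`, at the periodic points of `f`, is at most
`κ`. -/
def PerDefect (f : M ≃ₘ^1⟮𝓘(ℝ, V), 𝓘(ℝ, V)⟯ M)
    (E : ∀ x : M, Submodule ℝ (TangentSpace 𝓘(ℝ, V) x)) (κ : ℝ) : Prop :=
  ∀ p ∈ periodicPts f, ∀ e : ℝ, 0 < e → ∃ C : ℝ, ∀ (m : ℕ), ∀ v ∈ E p, ∀ w ∈ E p,
    ‖mfderiv 𝓘(ℝ, V) 𝓘(ℝ, V) (f^[m]) p v‖ * ‖w‖ ≤
      C * Real.exp ((κ + e) * m) * ‖mfderiv 𝓘(ℝ, V) 𝓘(ℝ, V) (f^[m]) p w‖ * ‖v‖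

/-- `n` is regular and `χ i n < 0`. -/
def RegNeg {k : ℕ} {J : Type*} (χ : J → Fin k → ℝ) (i : J) (n : Fin k → ℤ) : Prop :=
  (∀ j, ∑ a, χ j a * (n a : ℝ) ≠ 0) ∧ ∑ a, χ i a * (n a : ℝ) < 0

/-- `E i` is conformal; or the pair `i`, `j` is pinched or `E i` is nearly conformal. `W` is `Within`
or `PerWithin`, `D` is `Defect` or `PerDefect`. -/
def Cond (W : (M ≃ₘ^1⟮𝓘(ℝ, V), 𝓘(ℝ, V)⟯ M) →
      (∀ x : M, Submodule ℝ (TangentSpace 𝓘(ℝ, V) x)) → ℝ → ℝ → Prop)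
    (D : (M ≃ₘ^1⟮𝓘(ℝ, V), 𝓘(ℝ, V)⟯ M) →
      (∀ x : M, Submodule ℝ (TangentSpace 𝓘(ℝ, V) x)) → ℝ → Prop)
    {k : ℕ} {J : Type*} (A : (Fin k → ℤ) → M ≃ₘ^1⟮𝓘(ℝ, V), 𝓘(ℝ, V)⟯ M) (χ : J → Fin k → ℝ)
    (E : J → ∀ x : M, Submodule ℝ (TangentSpace 𝓘(ℝ, V) x)) (i j : J) : Prop :=
  (∃ n : Fin k → ℤ, RegNeg χ i n ∧ D (A n) (E i) 0) ∨
  ∃ (n n' : Fin k → ℤ) (s b s' b' : ℝ), RegNeg χ i n ∧ RegNeg χ j n' ∧ 0 < s ∧ s ≤ b ∧
    0 < s' ∧ s' ≤ b' ∧ W (A n) (E i) b s ∧ W (A n') (E j) b' s' ∧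
    ((b - s) * (b' - s') < s * s' ∨
      ∃ (u : ℕ) (κ : ℝ), (∀ x, Module.finrank ℝ (E i x) = u) ∧ 0 ≤ κ ∧ κ < s ∧
        D (A n) (E i) κ ∧ u * κ * (u * b' - s') < s * s')

end Defs

variable {V : Type*} [NormedAddCommGroup V] [NormedSpace ℝ V] [FiniteDimensional ℝ V]
  {M : Type*} [TopologicalSpace M] [CompactSpace M] [T2Space M] [ConnectedSpace M]
  [ChartedSpace V M] [IsManifold 𝓘(ℝ, V) ∞ M]
  [RiemannianBundle (fun x : M => TangentSpace 𝓘(ℝ, V) x)]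
  [IsContinuousRiemannianBundle V (fun x : M => TangentSpace 𝓘(ℝ, V) x)]

/-- **Main theorem.** -/
theorem result {k : ℕ} (A : (Fin k → ℤ) → M ≃ₘ^1⟮𝓘(ℝ, V), 𝓘(ℝ, V)⟯ M)
    (hadd : ∀ n n' x, A (n + n') x = A n (A n' x)) {J : Type*} [Finite J] (χ : J → Fin k → ℝ)
    (F : J → ∀ x : M, Submodule ℝ (TangentSpace 𝓘(ℝ, V) x))
    (hA : ∀ n : Fin k → ℤ, (∀ j, ∑ i, χ j i * (n i : ℝ) ≠ 0) → Gen.IsAnosovSplitting (A n)
      (fun x => ⨆ (j) (_ : ∑ i, χ j i * (n i : ℝ) < 0), F j x)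
      (fun x => ⨆ (j) (_ : 0 < ∑ i, χ j i * (n i : ℝ)), F j x))
    (E : J → ∀ x : M, Submodule ℝ (TangentSpace 𝓘(ℝ, V) x))
    (hE : ∀ i x, E i x = ⨆ (l) (_ : ∃ c : ℝ, 0 < c ∧ χ l = c • χ i), F l x)
    (hpair : ∀ i j, ∀ t : ℝ, 0 < t → χ i = -(t • χ j) →
      Cond Within Defect A χ E i j ∨ Cond Within Defect A χ E j i ∨
      (∀ x, Module.finrank ℝ (E i x) = 1) ∨ (∀ x, Module.finrank ℝ (E j x) = 1) ∨
      ((∀ n, ContMDiff 𝓘(ℝ, V) 𝓘(ℝ, V) 2 (A n)) ∧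
        (Cond PerWithin PerDefect A χ E i j ∨ Cond PerWithin PerDefect A χ E j i ∨
        ((∀ l x, F l x ≠ ⊥) ∧ 2 ≤ Module.finrank ℝ (Submodule.span ℝ (range χ)) ∧
          Module.finrank ℝ V ≤ Module.finrank ℝ (Submodule.span ℝ (range χ)) + 3))))
    (n : Fin k → ℤ) (hn : ∀ j, ∑ i, χ j i * (n i : ℝ) ≠ 0) : TopTransitive (A n) := by
  have key : ∀ i j, Cond Within Defect A χ E i j → HR.MCond A χ E i j := by
    rintro i j (⟨p, hp, h⟩ | ⟨p, q, s, b, s', b', hp, hq, h1, h2, h3, h4, h5, h6, h |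
      ⟨u, κ, hu, hκ, hκs, hD, h⟩⟩)
    · exact Or.inr (Or.inl ⟨p, hp.1, hp.2, h⟩)
    · exact Or.inl ⟨p, q, s, b, s', b', hp.1, hp.2, hq.1, hq.2, ⟨h1, h2, h3, h4, h⟩, h5, h6⟩
    · exact Or.inr (Or.inr ⟨p, q, u, κ, s, b, s', b', hp.1, hp.2, hq.1, hq.2,
        ⟨hκ, hκs, h2, h3, h4, h⟩, hu, hD, h5, h6⟩)
  have keyP : ∀ i j, Cond PerWithin PerDefect A χ E i j → HR.MCondP A χ E i j := by
    rintro i j (⟨p, hp, h⟩ | ⟨p, q, s, b, s', b', hp, hq, h1, h2, h3, h4, h5, h6, h |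
      ⟨u, κ, hu, hκ, hκs, hD, h⟩⟩)
    · exact Or.inr (Or.inl ⟨p, hp.1, hp.2, h⟩)
    · exact Or.inl ⟨p, q, s, b, s', b', hp.1, hp.2, hq.1, hq.2, ⟨h1, h2, h3, h4, h⟩, h5, h6⟩
    · exact Or.inr (Or.inr ⟨p, q, u, κ, s, b, s', b', hp.1, hp.2, hq.1, hq.2,
        ⟨hκ, hκs, h2, h3, h4, h⟩, hu, hD, h5, h6⟩)
  refine HR.main_s HR.chs HR.specActs HR.dimr A hadd χ F hA E (fun i => funext (hE i))
    (fun i j t ht hij => ?_) n hn
  rcases hpair i j t ht hij with h | h | h | h | ⟨hC, h | h | h⟩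
  · exact Or.inl (Or.inl (key i j h))
  · exact Or.inl (Or.inr (key j i h))
  · exact Or.inr (Or.inl h)
  · exact Or.inr (Or.inr (Or.inl h))
  · exact Or.inr (Or.inr (Or.inr ⟨hC, Or.inl (keyP i j h)⟩))
  · exact Or.inr (Or.inr (Or.inr ⟨hC, Or.inr (Or.inl (keyP j i h))⟩))
  · exact Or.inr (Or.inr (Or.inr ⟨hC, Or.inr (Or.inr h)⟩))

end Pool.Agent.Results.MP_610fe3_an.HigherRank
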