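import Pool.Agent.Lib.MP_610fe3_an.HYP.All

/-!
# Anosov diffeomorphisms with a slowly expanded hyperplane field in the unstable bundle

Let `f` be an Anosov diffeomorphism of a closed connected manifold `M` and `Ew` a continuous field
of hyperplanes of the unstable bundle `Eu`. Suppose that the exponents of `f` are in `[-r, -s]` on
`Es`, at least `a` on `Eu` and at most `b` on the vectors of `Ew`, where
`(r / s - 1) * (b / a - 1) < 1`. Then `f` is topologically transitive. Nothing is assumed about the
expansion of the other vectors of `Eu`.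

Each of the four bounds is either a uniform bound or, if `f` and its inverse are of class `C^2`, a
bound for the Lyapunov exponents at the periodic points only (`HYP.SlowHyperplane`). For the bound on
`Ew` this requires that `Ew` is invariant and has an invariant complement in `Eu` which dominates
it; with a uniform bound `Ew` need not be invariant, integrable or dominated.
-/

open Set Filter Function Bundle
open scoped Topology Manifold ContDiff

namespace Pool.Agent.Results.MP_610fe3_an.SlowHyperplane

open Pool.Agent.Lib.MP610fe3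

/-- **Main theorem.** -/
theorem result {V : Type*} [NormedAddCommGroup V] [NormedSpace ℝ V] [FiniteDimensional ℝ V]
    {M : Type*} [TopologicalSpace M] [CompactSpace M] [T2Space M] [ConnectedSpace M]
    [ChartedSpace V M] [IsManifold 𝓘(ℝ, V) ∞ M]
    [RiemannianBundle (fun x : M => TangentSpace 𝓘(ℝ, V) x)]
    [IsContinuousRiemannianBundle V (fun x : M => TangentSpace 𝓘(ℝ, V) x)]
    (f : M ≃ₘ^1⟮𝓘(ℝ, V), 𝓘(ℝ, V)⟯ M)
    (Es Eu Ew : ∀ x : M, Submodule ℝ (TangentSpace 𝓘(ℝ, V) x))
    (hA : Gen.IsAnosovSplitting f Es Eu) (r s a b : ℝ) (hs : 0 < s) (hsr : s ≤ r) (ha : 0 < a)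
    (hab : a ≤ b) (h : HYP.SlowHyperplane f Es Eu Ew r s a b)
    (hpinch : (r / s - 1) * (b / a - 1) < 1) :
    TopTransitive f :=
  HYP.transitive f Es Eu Ew hA hs hsr ha hab h hpinch

/-- The case of constant weak exponents: `Ew` is invariant, with an invariant dominating complement
`El`, the exponents on `Ew` at the periodic points are all equal to one number `a`, and those on
`Eu` are at least `a`; nothing is assumed about `Es`. -/
theorem constant_weak_exponent {V : Type*} [NormedAddCommGroup V] [NormedSpace ℝ V]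
    [FiniteDimensional ℝ V]
    {M : Type*} [TopologicalSpace M] [CompactSpace M] [T2Space M] [ConnectedSpace M]
    [ChartedSpace V M] [IsManifold 𝓘(ℝ, V) ∞ M]
    [RiemannianBundle (fun x : M => TangentSpace 𝓘(ℝ, V) x)]
    [IsContinuousRiemannianBundle V (fun x : M => TangentSpace 𝓘(ℝ, V) x)]
    (f : M ≃ₘ^1⟮𝓘(ℝ, V), 𝓘(ℝ, V)⟯ M) (hf : HYP.IsC2 f)
    (Es Eu Ew El : ∀ x : M, Submodule ℝ (TangentSpace 𝓘(ℝ, V) x))
    (hA : Gen.IsAnosovSplitting f Es Eu) (hD : HYP.IsDominated f Eu Ew El) (a : ℝ) (ha : 0 < a)
    (h₁ : HYP.PeriodicRate f f.symm Eu (-a)) (h₂ : HYP.PeriodicRate f f Ew a) :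
    TopTransitive f :=
  HYP.constWeak f hf Es Eu Ew El hA hD ha h₁ h₂

end Pool.Agent.Results.MP_610fe3_an.SlowHyperplane
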